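import Pool.Agent.Helper28.Ram.Goals

/-!
# The evaluation of the polynomials
-/

namespace Pool.Agent.Helper45.Ram

open Pool.Agent.Helper65.LinSpace Pool.Agent.Helper28.Ram Finset

section

variable {m : Mach} {p : ℕ}

/-- The registers of `s'` are `R`, and above the level `l` the state `s'` is the same as `s`. -/
structure Up (m : Mach) (l : ℕ) (s : Mach.St p) (R : ℕ → ℕ → ZMod p) (s' : Mach.St p) : Prop where
  hR : s'.R = R
  lev : ∀ k, l + 1 ≤ k → s'.md k = s.md k ∧ s'.nd k = s.nd k ∧ s'.sg k = s.sg k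
  rest : ∀ k, l + 1 ≤ k * (m.G + 2) → s'.qa k = s.qa k ∧ s'.ac k = s.ac k ∧ s'.sv k = s.sv k

theorem Up.refl (l : ℕ) (s : Mach.St p) : Up m l s s.R s :=
  ⟨rfl, fun _ _ => ⟨rfl, rfl, rfl⟩, fun _ _ => ⟨rfl, rfl, rfl⟩⟩

theorem Up.call {l : ℕ} {s : Mach.St p} {R : ℕ → ℕ → ZMod p} {s' : Mach.St p}
    (h : Up m l s R s') (c i g : ℕ) : Up m l s R (s'.call l c i g) := by
  refine ⟨h.hR, fun k hk => ?_, h.rest⟩
  have hne : k ≠ l := by omega
  simp only [Mach.St.call, Function.update_of_ne hne]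
  exact h.lev k hk

theorem Up.setR {l : ℕ} {s : Mach.St p} {R R' : ℕ → ℕ → ZMod p} {s' : Mach.St p}
    (h : Up m l s R s') : Up m l s R' { s' with R := R' } :=
  ⟨rfl, h.lev, h.rest⟩

theorem Up.setK {l : ℕ} {s : Mach.St p} {R : ℕ → ℕ → ZMod p} {s' : Mach.St p}
    (h : Up m l s R s') {k : ℕ} (hk : k * (m.G + 2) ≤ l) (x : ℕ) (y : ZMod p) (z : ℕ → ZMod p) :
    Up m l s R { s' with
      ac := Function.update s'.ac k y
      sv := Function.update s'.sv k z
      qa := Function.update s'.qa k x } := by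
  refine ⟨h.hR, h.lev, fun k' hk' => ?_⟩
  have hne : k' ≠ k := by
    rintro rfl
    omega
  simp only [Function.update_of_ne hne]
  exact h.rest k' hk'

theorem Up.setAc {l : ℕ} {s : Mach.St p} {R : ℕ → ℕ → ZMod p} {s' : Mach.St p}
    (h : Up m l s R s') {k : ℕ} (hk : k * (m.G + 2) ≤ l) (y : ZMod p) :
    Up m l s R { s' with ac := Function.update s'.ac k y } := by
  refine ⟨h.hR, h.lev, fun k' hk' => ?_⟩
  have hne : k' ≠ k := by
    rintro rfl
    omega
  simp only [Function.update_of_ne hne]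
  exact h.rest k' hk'

theorem ideal_idle {l : ℕ} {s : Mach.St p} (h : s.md l = 0) : m.ideal l s = s := by
  cases l with
  | zero =>
    show (if s.md 0 = 1 then _ else _) = _
    rw [if_neg (by omega)]
  | succ l =>
    show (if s.md (l + 1) = 2 ∧ _ then _ else if s.md (l + 1) = 1 ∧ _ then _ else _) = _
    rw [if_neg (by omega), if_neg (by omega)]

theorem ideal_top (hTOP : TOP_stmt) {l : ℕ} (hl : l % (m.G + 2) = 0) {s : Mach.St p}
    (hmd : s.md l = 1) (hnd : s.nd l = m.G) (hq : s.qa (l / (m.G + 2)) < 2 ^ m.σ) :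
    m.ideal l s = { s with R := Mach.addR m.G (fun o => Mach.sgz p (s.sg l) *
      m.T p (l / (m.G + 2)) (s.qa (l / (m.G + 2))) o) s.R } := by
  cases l with
  | zero =>
    show (if s.md 0 = 1 then _ else _) = _
    rw [if_pos hmd, Nat.zero_div]
  | succ l =>
    have h1 : l % (m.G + 2) = m.G + 1 ∧ (l + 1) / (m.G + 2) = l / (m.G + 2) + 1 := by
      obtain ⟨c, hc⟩ := Nat.dvd_of_mod_eq_zero hl
      have hc0 : 0 < c := by
        rcases Nat.eq_zero_or_pos c with h | h
        · subst h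
          simp at hc
        · exact h
      obtain ⟨c', rfl⟩ : ∃ c', c = c' + 1 := ⟨c - 1, by omega⟩
      have hl' : l = (m.G + 2) * c' + (m.G + 1) := by
        have : (m.G + 2) * (c' + 1) = (m.G + 2) * c' + (m.G + 2) := by ring
        omega
      constructor
      · rw [hl', Nat.mul_add_mod, Nat.mod_eq_of_lt (by omega)]
      · rw [hc, Nat.mul_div_cancel_left _ (by omega), hl', Nat.mul_add_div (by omega),
          Nat.div_eq_of_lt (by omega : m.G + 1 < m.G + 2)]
    show (if s.md (l + 1) = 2 ∧ _ then _ else if s.md (l + 1) = 1 ∧ _ then _ else _) = _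
    rw [if_neg (by omega), if_pos ⟨hmd, by rw [hnd, h1.1]; omega⟩]
    congr 1
    rw [hnd]
    congr 1
    funext o
    rw [hTOP m p, h1.2]
    rw [h1.2] at hq
    rw [Nat.mod_eq_of_lt hq]

theorem hr_congr {a v : ℕ} {h : ZMod p} {X X' : ℕ → ℕ → ZMod p} :
    ∀ n : ℕ, (∀ e < n, X (e / m.b) = X' (e / m.b)) → m.hr p a v h X n = m.hr p a v h X' n := by
  intro n
  induction n with
  | zero => intro _; rfl
  | succ n ih =>
    intro hX
    have h1 := ih fun e he => hX e (by omega)
    have h2 := hX n (by omega)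
    simp only [Mach.hr, h1, h2]

theorem fct_congr {i a y r : ℕ} (hr : r < m.b) {D : ℕ → ZMod p} {X X' : ℕ → ℕ → ZMod p}
    (hX : ∀ i' < i, X i' = X' i') : m.fct p i a y r D X = m.fct p i a y r D X' := by
  unfold Mach.fct
  congr 1
  · by_cases h0 : r = 0
    · rw [if_pos h0, if_pos h0]
      by_cases hi : i = 0
      · rw [if_pos hi, if_pos hi]
      · rw [if_neg hi, if_neg hi, hX _ (by omega)]
    · rw [if_neg h0, if_neg h0]
  · apply hr_congr
    intro e he
    funext o
    by_cases hi : e / m.b = i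
    · simp only [if_pos hi]
    · simp only [if_neg hi]
      have : e / m.b < i := by
        have h1 : e / m.b < i + 1 := by
          rw [Nat.div_lt_iff_lt_mul (by omega)]
          calc e < i * m.b + r := he
            _ < i * m.b + m.b := by omega
            _ = (i + 1) * m.b := by ring
        omega
      rw [hX _ this]

theorem dig_lt {q : ℕ} (hq : 0 < q) (R i : ℕ) : dig q R i < q := Nat.mod_lt _ hq

theorem ta_lt (hm : m.Ok) (i a y r : ℕ) : m.ta i a y r < 2 ^ m.σ := by
  unfold Mach.ta Mach.nA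
  rw [ifz_eq01]
  split_ifs
  · exact Nat.mod_lt _ (by positivity)
  · exact hm.hA _

theorem addR_add (i : ℕ) (c c' : ℕ → ZMod p) (R : ℕ → ℕ → ZMod p) :
    Mach.addR i c' (Mach.addR i c R) = Mach.addR i (fun o => c o + c' o) R := by
  funext i' o
  simp only [Mach.addR]
  split_ifs
  · ring
  · rfl

theorem addR_zero (i : ℕ) (R : ℕ → ℕ → ZMod p) : Mach.addR i (fun _ => 0) R = R := by
  funext i' o
  simp [Mach.addR]

theorem addR_of_ne {i i' : ℕ} (h : i' ≠ i) (c : ℕ → ZMod p) (R : ℕ → ℕ → ZMod p) :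
    Mach.addR i c R i' = R i' := by
  funext o
  simp only [Mach.addR, if_neg h]

/-- One operation and the procedure of the level below. -/
def stp (m : Mach) (l : ℕ) : ℕ → Mach.St p → Mach.St p := fun j s => m.ideal l (m.op l j s)

/-- Two operations with the calls after them. -/
theorem two (hTOP : TOP_stmt) (hm : m.Ok) {l : ℕ} (hl : l % (m.G + 2) = 0) {s : Mach.St p}
    (hmd : s.md (l + 1) = 2) (hnd : s.nd (l + 1) ≤ m.G) {R : ℕ → ℕ → ZMod p} {s' : Mach.St p}
    (h : Up m l s R s') {y r : ℕ} (hr : r < m.b) :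
    Up m l s R (stp m l (y * (2 * m.b + 1) + (2 * r + 1))
      (stp m l (y * (2 * m.b + 1) + 2 * r) s')) ∧
    (stp m l (y * (2 * m.b + 1) + (2 * r + 1))
      (stp m l (y * (2 * m.b + 1) + 2 * r) s')).ac (l / (m.G + 2)) =
      (if r = 0 then 1 else s'.ac (l / (m.G + 2))) *
        m.fct p (s.nd (l + 1)) (s.qa (l / (m.G + 2) + 1)) y r
          (m.T p (l / (m.G + 2)) (m.ta (s.nd (l + 1)) (s.qa (l / (m.G + 2) + 1)) y r)) R := by
  set k := l / (m.G + 2) with hk
  have hkl : k * (m.G + 2) = l := by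
    rw [hk]
    exact Nat.div_mul_cancel (Nat.dvd_of_mod_eq_zero hl)
  have hk1 : l + 1 ≤ (k + 1) * (m.G + 2) := by
    have : (k + 1) * (m.G + 2) = k * (m.G + 2) + (m.G + 2) := by ring
    omega
  set i := s.nd (l + 1) with hi
  set a := s.qa (k + 1) with ha
  set x := m.ta i a y r with hx
  -- the first operation
  set s1 : Mach.St p := ({ s' with
          ac := Function.update s'.ac k (if r = 0 then 1 else s'.ac k)
          sv := Function.update s'.sv k (s'.R m.G)
          qa := Function.update s'.qa k x } : Mach.St p).call l 1 m.G 0 with hs1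
  have e1 : m.op l (y * (2 * m.b + 1) + 2 * r) s' = s1 := by
    unfold Mach.op
    rw [if_pos hl]
    unfold Mach.opE
    rw [if_pos ⟨by rw [(h.lev _ le_rfl).1]; exact hmd, by rw [(h.lev _ le_rfl).2.1]; exact hnd⟩]
    rw [mod_eq_block (by omega : 2 * r < 2 * m.b + 1), div_eq_block (by omega : 2 * r < 2 * m.b + 1)]
    rw [if_neg (by omega), if_pos (by omega), (h.lev _ le_rfl).2.1, ← hi, ← hk,
      (h.rest _ hk1).1, ← ha, show 2 * r / 2 = r by omega, ← hx]
    rw [hs1]
    by_cases h0 : r = 0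
    · rw [if_pos h0, if_pos (by omega)]
    · rw [if_neg h0, if_neg (by omega)]
  have u1 : Up m l s R s1 := (h.setK (by omega) _ _ _).call _ _ _
  have q1 : s1.qa k = x := by
    simp [hs1, Mach.St.call]
  have md1 : s1.md l = 1 := by simp [hs1, Mach.St.call]
  have nd1 : s1.nd l = m.G := by simp [hs1, Mach.St.call]
  have sg1 : s1.sg l = 0 := by simp [hs1, Mach.St.call]
  have ac1 : s1.ac k = if r = 0 then 1 else s'.ac k := by simp [hs1, Mach.St.call]
  have sv1 : s1.sv k = R m.G := by simp [hs1, Mach.St.call, h.hR]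
  have xlt : x < 2 ^ m.σ := ta_lt hm _ _ _ _
  set s2 : Mach.St p := { s1 with R := Mach.addR m.G (fun o => m.T p k x o) R } with hs2
  have e2 : stp m l (y * (2 * m.b + 1) + 2 * r) s' = s2 := by
    unfold stp
    rw [e1, ideal_top hTOP hl md1 nd1 (by rw [← hk, q1]; exact xlt), ← hk, q1, sg1, u1.hR, hs2]
    congr 2
    funext o
    simp [Mach.sgz]
  have u2 : Up m l s (Mach.addR m.G (fun o => m.T p k x o) R) s2 := u1.setR
  set F := m.fct p i a y r (m.T p k x) R with hF
  set s3 : Mach.St p := ({ s2 with ac := Function.update s2.ac k (s2.ac k * F) } :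
    Mach.St p).call l 1 m.G 1 with hs3
  have e3 : m.op l (y * (2 * m.b + 1) + (2 * r + 1)) s2 = s3 := by
    unfold Mach.op
    rw [if_pos hl]
    unfold Mach.opE
    rw [if_pos ⟨by rw [(u2.lev _ le_rfl).1]; exact hmd, by rw [(u2.lev _ le_rfl).2.1]; exact hnd⟩]
    rw [mod_eq_block (by omega : 2 * r + 1 < 2 * m.b + 1),
      div_eq_block (by omega : 2 * r + 1 < 2 * m.b + 1)]
    rw [if_neg (by omega), if_neg (by omega), (u2.lev _ le_rfl).2.1, ← hi, ← hk,
      (u2.rest _ hk1).1, ← ha, show (2 * r + 1) / 2 = r by omega]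
    have hD : (fun o => s2.R m.G o - s2.sv k o) = m.T p k x := by
      funext o
      have : s2.sv k = R m.G := sv1
      rw [this, u2.hR]
      simp [Mach.addR]
    rw [hD]
    have hX : m.fct p i a y r (m.T p k x) s2.R = F := by
      rw [hF]
      apply fct_congr hr
      intro i' hi'
      rw [u2.hR]
      exact addR_of_ne (by omega) _ _
    rw [hX]
  have u3 : Up m l s (Mach.addR m.G (fun o => m.T p k x o) R) s3 := (u2.setAc (by omega) _).call _ _ _
  have q3 : s3.qa k = x := q1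
  have md3 : s3.md l = 1 := by simp [hs3, Mach.St.call]
  have nd3 : s3.nd l = m.G := by simp [hs3, Mach.St.call]
  have sg3 : s3.sg l = 1 := by simp [hs3, Mach.St.call]
  have ac3 : s3.ac k = (if r = 0 then 1 else s'.ac k) * F := by
    simp only [hs3, Mach.St.call, Function.update_self]
    rw [show s2.ac k = s1.ac k from rfl, ac1]
  have e4 : stp m l (y * (2 * m.b + 1) + (2 * r + 1)) s2 = { s3 with R := R } := by
    unfold stp
    rw [e3, ideal_top hTOP hl md3 nd3 (by rw [← hk, q3]; exact xlt), ← hk, q3, sg3, u3.hR, addR_add]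
    congr 1
    rw [← addR_zero m.G R]
    congr 1
    · funext o
      simp [Mach.sgz]
    · rw [addR_zero]
  rw [e2, e4]
  exact ⟨u3.setR, ac3⟩

/-- The first `2 r` operations of a round. -/
theorem rnd (hTOP : TOP_stmt) (hm : m.Ok) {l : ℕ} (hl : l % (m.G + 2) = 0) {s : Mach.St p}
    (hmd : s.md (l + 1) = 2) (hnd : s.nd (l + 1) ≤ m.G) {R : ℕ → ℕ → ZMod p} {s' : Mach.St p}
    (h : Up m l s R s') (y : ℕ) : ∀ r ≤ m.b,
    Up m l s R (iter (fun j => stp m l (y * (2 * m.b + 1) + j)) (2 * r) s') ∧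
    (0 < r → (iter (fun j => stp m l (y * (2 * m.b + 1) + j)) (2 * r) s').ac (l / (m.G + 2)) =
      ∏ r' ∈ range r,
        m.fct p (s.nd (l + 1)) (s.qa (l / (m.G + 2) + 1)) y r'
          (m.T p (l / (m.G + 2)) (m.ta (s.nd (l + 1)) (s.qa (l / (m.G + 2) + 1)) y r')) R) := by
  intro r
  induction r with
  | zero =>
    intro _
    exact ⟨h, fun h0 => absurd h0 (lt_irrefl _)⟩
  | succ r ih =>
    intro hr
    obtain ⟨h1, h2⟩ := ih (by omega)
    have h3 := two hTOP hm hl hmd hnd h1 (y := y) (r := r) (by omega)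
    have e : iter (fun j => stp m l (y * (2 * m.b + 1) + j)) (2 * (r + 1)) s' =
        stp m l (y * (2 * m.b + 1) + (2 * r + 1)) (stp m l (y * (2 * m.b + 1) + 2 * r)
          (iter (fun j => stp m l (y * (2 * m.b + 1) + j)) (2 * r) s')) := rfl
    rw [e]
    refine ⟨h3.1, fun _ => ?_⟩
    rw [h3.2, prod_range_succ]
    congr 1
    rcases Nat.eq_zero_or_pos r with h0 | h0
    · subst h0
      simp
    · rw [if_neg (by omega), h2 h0]

/-- The value which is subtracted in the round `y`. -/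
noncomputable def val (m : Mach) (l : ℕ) (s : Mach.St p) (R : ℕ → ℕ → ZMod p) (y o : ℕ) : ZMod p :=
  (∏ r ∈ range m.b,
    m.fct p (s.nd (l + 1)) (s.qa (l / (m.G + 2) + 1)) y r
      (m.T p (l / (m.G + 2)) (m.ta (s.nd (l + 1)) (s.qa (l / (m.G + 2) + 1)) y r)) R) *
    ((m.outc (s.nd (l + 1)) (s.qa (l / (m.G + 2) + 1)) y o : ℕ) : ZMod p)

theorem val_congr {l : ℕ} {s : Mach.St p} {R R' : ℕ → ℕ → ZMod p}
    (hX : ∀ i' < s.nd (l + 1), R i' = R' i') (y o : ℕ) : val m l s R y o = val m l s R' y o := by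
  unfold val
  congr 1
  apply prod_congr rfl
  intro r hr
  exact fct_congr (mem_range.1 hr) hX

/-- A round. -/
theorem round (hTOP : TOP_stmt) (hm : m.Ok) {l : ℕ} (hl : l % (m.G + 2) = 0) {s : Mach.St p}
    (hmd : s.md (l + 1) = 2) (hnd : s.nd (l + 1) ≤ m.G) {R : ℕ → ℕ → ZMod p} {s' : Mach.St p}
    (h : Up m l s R s') (y : ℕ) :
    Up m l s (Mach.addR (s.nd (l + 1)) (fun o => -(Mach.sgz p (s.sg (l + 1)) * val m l s R y o)) R)
      (iter (fun j => stp m l (y * (2 * m.b + 1) + j)) (2 * m.b + 1) s') := by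
  obtain ⟨h1, h2⟩ := rnd hTOP hm hl hmd hnd h y m.b le_rfl
  specialize h2 hm.hb
  set s1 := iter (fun j => stp m l (y * (2 * m.b + 1) + j)) (2 * m.b) s' with hs1
  have e0 : iter (fun j => stp m l (y * (2 * m.b + 1) + j)) (2 * m.b + 1) s' =
      stp m l (y * (2 * m.b + 1) + 2 * m.b) s1 := rfl
  have hk1 : l + 1 ≤ (l / (m.G + 2) + 1) * (m.G + 2) := by
    have h3 : l / (m.G + 2) * (m.G + 2) = l := Nat.div_mul_cancel (Nat.dvd_of_mod_eq_zero hl)
    have : (l / (m.G + 2) + 1) * (m.G + 2) = l / (m.G + 2) * (m.G + 2) + (m.G + 2) := by ring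
    omega
  rw [e0]
  have e1 : m.op l (y * (2 * m.b + 1) + 2 * m.b) s1 =
      ({ s1 with
          R := Mach.addR (s.nd (l + 1)) (fun o => -(Mach.sgz p (s.sg (l + 1)) *
            val m l s R y o)) R } : Mach.St p).call l 0 0 0 := by
    unfold Mach.op
    rw [if_pos hl]
    unfold Mach.opE
    rw [if_pos ⟨by rw [(h1.lev _ le_rfl).1]; exact hmd, by rw [(h1.lev _ le_rfl).2.1]; exact hnd⟩]
    rw [mod_eq_block (by omega : 2 * m.b < 2 * m.b + 1),
      div_eq_block (by omega : 2 * m.b < 2 * m.b + 1), if_pos rfl,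
      (h1.lev _ le_rfl).2.1, (h1.lev _ le_rfl).2.2, (h1.rest _ hk1).1, h2, h1.hR]
    congr 3
  unfold stp
  rw [e1, ideal_idle (by simp [Mach.St.call])]
  exact h1.setR.call _ _ _

/-- All rounds. -/
theorem rounds (hTOP : TOP_stmt) (hm : m.Ok) {l : ℕ} (hl : l % (m.G + 2) = 0) {s : Mach.St p}
    (hmd : s.md (l + 1) = 2) (hnd : s.nd (l + 1) ≤ m.G) : ∀ n : ℕ,
    Up m l s (Mach.addR (s.nd (l + 1)) (fun o => -(Mach.sgz p (s.sg (l + 1)) *
      ∑ y ∈ range n, val m l s s.R y o)) s.R)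
      (iter (fun y => iter (fun j => stp m l (y * (2 * m.b + 1) + j)) (2 * m.b + 1)) n s) := by
  intro n
  induction n with
  | zero =>
    have e : Mach.addR (s.nd (l + 1)) (fun o => -(Mach.sgz p (s.sg (l + 1)) *
        ∑ y ∈ range 0, val m l s s.R y o)) s.R = s.R := by
      rw [← addR_zero (s.nd (l + 1)) s.R]
      congr 1
      · funext o
        simp
      · rw [addR_zero]
    rw [e]
    exact Up.refl _ _
  | succ n ih =>
    have h1 := round hTOP hm hl hmd hnd ih n
    rw [addR_add] at h1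
    have e : (fun o => -(Mach.sgz p (s.sg (l + 1)) * ∑ y ∈ range n, val m l s s.R y o) +
        -(Mach.sgz p (s.sg (l + 1)) * val m l s (Mach.addR (s.nd (l + 1)) (fun o =>
          -(Mach.sgz p (s.sg (l + 1)) * ∑ y ∈ range n, val m l s s.R y o)) s.R) n o)) =
        fun o => -(Mach.sgz p (s.sg (l + 1)) * ∑ y ∈ range (n + 1), val m l s s.R y o) := by
      funext o
      rw [val_congr (R' := s.R) (fun i' hi' => addR_of_ne (by omega) _ _) n o, sum_range_succ]
      ring
    rw [e] at h1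
    exact h1

theorem idle {l : ℕ} (hl : l % (m.G + 2) = 0) {s : Mach.St p}
    (hn : ¬ (s.md (l + 1) = 2 ∧ s.nd (l + 1) ≤ m.G)) : ∀ n : ℕ,
    Up m l s s.R (iter (stp m l) n s) := by
  intro n
  induction n with
  | zero => exact Up.refl _ _
  | succ n ih =>
    set s1 := iter (stp m l) n s with hs1
    show Up m l s s.R (stp m l n s1)
    have e1 : m.op l n s1 = s1.call l 0 0 0 := by
      unfold Mach.op
      rw [if_pos hl]
      unfold Mach.opE
      rw [if_neg]
      rw [(ih.lev _ le_rfl).1, (ih.lev _ le_rfl).2.1]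
      exact hn
    unfold stp
    rw [e1, ideal_idle (by simp [Mach.St.call])]
    exact ih.call _ _ _

theorem Up.agree {l : ℕ} {s : Mach.St p} {R : ℕ → ℕ → ZMod p} {s' : Mach.St p}
    (h : Up m l s R s') : m.Agree (l + 1) s' { s with R := R } :=
  ⟨h.hR, h.lev, h.rest⟩

end

theorem ELEV (hTOP : TOP_stmt) : ELEV_stmt := by
  intro m p _ hm l hl s
  have e0 : (fun j s => m.ideal l (m.op l j s)) = stp (p := p) m l := rfl
  rw [e0]
  by_cases hn : s.md (l + 1) = 2 ∧ s.nd (l + 1) ≤ m.G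
  · have e1 : m.cnt p l = 2 ^ (m.σ * (m.b + 1)) * (2 * m.b + 1) := by
      unfold Mach.cnt
      rw [hl, ifz_zero]
    have e2 : m.ideal (l + 1) s = { s with R := Mach.addR (s.nd (l + 1)) (fun o =>
        -(Mach.sgz p (s.sg (l + 1)) * m.P p (l / (m.G + 2)) (s.nd (l + 1))
          (s.qa (l / (m.G + 2) + 1)) s.R o)) s.R } := by
      show (if s.md (l + 1) = 2 ∧ _ then _ else _) = _
      rw [if_pos hn]
    rw [e1, iter_mul, e2]
    exact (rounds hTOP hm hl hn.1 hn.2 _).agree
  · have e2 : m.ideal (l + 1) s = s := by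
      show (if s.md (l + 1) = 2 ∧ _ then _ else if s.md (l + 1) = 1 ∧ _ then _ else _) = _
      rw [if_neg hn, if_neg]
      rw [hl]
      omega
    rw [e2]
    exact (idle hl hn _).agree

end Pool.Agent.Helper45.Ram
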